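import Pool.Agent.H334R2.CM.Defs
set_option autoImplicit false
open scoped Matrix MatrixGroups
universe u
namespace CM

namespace COMB

/-- transport orbit data along an equivalence of the index type -/
def odEquiv {K X : Type} [Group K] {a : K →* Equiv.Perm X} {Y : Set X} {α β : Type}
    (D : OD a Y α) (e : β ≃ α) : OD a Y β where
  r4 i := D.r4 (e i)
  r3 i := D.r3 (e i)
  r1 i := D.r1 (e i)
  m4 i := D.m4 _
  m3 i := D.m3 _
  m1 i := D.m1 _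
  s4 i := D.s4 _
  s3 i := D.s3 _
  s1 i := D.s1 _
  cover x hx := by
    obtain ⟨g, i, h⟩ := D.cover x hx
    exact ⟨g, e.symm i, by simpa using h⟩
  d44 i j g h := e.injective (D.d44 _ _ g h)
  d33 i j g h := e.injective (D.d33 _ _ g h)
  d11 i j g h := e.injective (D.d11 _ _ g h)
  d43 i j g := D.d43 _ _ g
  d41 i j g := D.d41 _ _ g
  d31 i j g := D.d31 _ _ g

variable {K : Type} [Group K] (ρ : K →* SL(3, ZMod 11))

lemma lab_inl (g : K) (p : V3) :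
    (labAct.comp ρ) g (Sum.inl p) = Sum.inl ((dualAct.comp ρ) g p) := rfl

lemma lab_inr (g : K) (c : {c : V3 // c ≠ 0}) (d : ZMod 11) :
    (labAct.comp ρ) g (Sum.inr (c, d)) = Sum.inr (stdAct0 (ρ g) c, d) := rfl

lemma std0_iff (g : K) (c c' : {c : V3 // c ≠ 0}) :
    stdAct0 (ρ g) c = c' ↔ (stdAct.comp ρ) g c.1 = c'.1 := by
  constructor
  · rintro rfl; rfl
  · intro h; exact Subtype.ext h

lemma lab_inl_iff (g : K) (p q : V3) :
    (labAct.comp ρ) g (Sum.inl p) = Sum.inl q ↔ (dualAct.comp ρ) g p = q := by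
  rw [lab_inl, Sum.inl.injEq]

lemma lab_inr_iff (g : K) (c c' : {c : V3 // c ≠ 0}) (d d' : ZMod 11) :
    (labAct.comp ρ) g (Sum.inr (c, d)) = Sum.inr (c', d') ↔
      (stdAct.comp ρ) g c.1 = c'.1 ∧ d = d' := by
  rw [lab_inr, Sum.inr.injEq, Prod.mk.injEq, std0_iff]

lemma lab_inl_ne (g : K) (p : V3) (q : {c : V3 // c ≠ 0} × ZMod 11) :
    (labAct.comp ρ) g (Sum.inl p) ≠ Sum.inr q := by
  rw [lab_inl]; exact Sum.inl_ne_inr

lemma lab_inr_ne (g : K) (q : {c : V3 // c ≠ 0} × ZMod 11) (p : V3) :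
    (labAct.comp ρ) g (Sum.inr q) ≠ Sum.inl p := by
  obtain ⟨c, d⟩ := q
  rw [lab_inr]; exact Sum.inr_ne_inl

variable (D1 : OD (stdAct.comp ρ) {v | v ≠ 0} (Fin 5))
  (D2 : OD (dualAct.comp ρ) {v | v ≠ 0} (Fin 5))

/-- combine -/
def comb : OD (labAct.comp ρ) {x | x ≠ Sum.inl 0} (Fin 5 ⊕ (Fin 5 × ZMod 11)) where
  r4 := Sum.elim (fun i => Sum.inl (D2.r4 i)) (fun p => Sum.inr (⟨D1.r4 p.1, D1.m4 p.1⟩, p.2))
  r3 := Sum.elim (fun i => Sum.inl (D2.r3 i)) (fun p => Sum.inr (⟨D1.r3 p.1, D1.m3 p.1⟩, p.2))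
  r1 := Sum.elim (fun i => Sum.inl (D2.r1 i)) (fun p => Sum.inr (⟨D1.r1 p.1, D1.m1 p.1⟩, p.2))
  m4 := by
    rintro (i | ⟨i, d⟩)
    · have := D2.m4 i
      simpa using this
    · simp
  m3 := by
    rintro (i | ⟨i, d⟩)
    · have := D2.m3 i
      simpa using this
    · simp
  m1 := by
    rintro (i | ⟨i, d⟩)
    · have := D2.m1 i
      simpa using this
    · simp
  s4 := by
    rintro (i | ⟨i, d⟩)
    · obtain ⟨u, hu, h⟩ := D2.s4 i
      exact ⟨u, hu, fun g => (lab_inl_iff ρ g _ _).trans (h g)⟩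
    · obtain ⟨u, hu, h⟩ := D1.s4 i
      refine ⟨u, hu, fun g => (lab_inr_iff ρ g _ _ _ _).trans ?_⟩
      simpa using h g
  s3 := by
    rintro (i | ⟨i, d⟩)
    · obtain ⟨u, hu, h⟩ := D2.s3 i
      exact ⟨u, hu, fun g => (lab_inl_iff ρ g _ _).trans (h g)⟩
    · obtain ⟨u, hu, h⟩ := D1.s3 i
      refine ⟨u, hu, fun g => (lab_inr_iff ρ g _ _ _ _).trans ?_⟩
      simpa using h g
  s1 := by
    rintro (i | ⟨i, d⟩) g hg
    · exact D2.s1 i g ((lab_inl_iff ρ g _ _).mp hg)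
    · exact D1.s1 i g ((lab_inr_iff ρ g _ _ _ _).mp hg).1
  cover := by
    rintro (p | ⟨⟨c, hc⟩, d⟩) hx
    · have hp : p ∈ {v : V3 | v ≠ 0} := by
        intro h
        exact hx (by rw [h])
      obtain ⟨g, i, h⟩ := D2.cover p hp
      refine ⟨g, Sum.inl i, ?_⟩
      rcases h with h | h | h
      · exact Or.inl ((lab_inl_iff ρ g _ _).mpr h)
      · exact Or.inr (Or.inl ((lab_inl_iff ρ g _ _).mpr h))
      · exact Or.inr (Or.inr ((lab_inl_iff ρ g _ _).mpr h))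
    · obtain ⟨g, i, h⟩ := D1.cover c hc
      refine ⟨g, Sum.inr (i, d), ?_⟩
      rcases h with h | h | h
      · exact Or.inl ((lab_inr_iff ρ g _ _ _ _).mpr ⟨h, rfl⟩)
      · exact Or.inr (Or.inl ((lab_inr_iff ρ g _ _ _ _).mpr ⟨h, rfl⟩))
      · exact Or.inr (Or.inr ((lab_inr_iff ρ g _ _ _ _).mpr ⟨h, rfl⟩))
  d44 := by
    rintro (i | ⟨i, d⟩) (j | ⟨j, d'⟩) g h
    · rw [D2.d44 i j g ((lab_inl_iff ρ g _ _).mp h)]
    · exact absurd h (lab_inl_ne ρ g _ _)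
    · exact absurd h (lab_inr_ne ρ g _ _)
    · obtain ⟨h1, h2⟩ := (lab_inr_iff ρ g _ _ _ _).mp h
      have h3 := D1.d44 i j g h1
      subst h3
      simp only at h2
      rw [h2]
  d33 := by
    rintro (i | ⟨i, d⟩) (j | ⟨j, d'⟩) g h
    · rw [D2.d33 i j g ((lab_inl_iff ρ g _ _).mp h)]
    · exact absurd h (lab_inl_ne ρ g _ _)
    · exact absurd h (lab_inr_ne ρ g _ _)
    · obtain ⟨h1, h2⟩ := (lab_inr_iff ρ g _ _ _ _).mp h
      have h3 := D1.d33 i j g h1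
      subst h3
      simp only at h2
      rw [h2]
  d11 := by
    rintro (i | ⟨i, d⟩) (j | ⟨j, d'⟩) g h
    · rw [D2.d11 i j g ((lab_inl_iff ρ g _ _).mp h)]
    · exact absurd h (lab_inl_ne ρ g _ _)
    · exact absurd h (lab_inr_ne ρ g _ _)
    · obtain ⟨h1, h2⟩ := (lab_inr_iff ρ g _ _ _ _).mp h
      have h3 := D1.d11 i j g h1
      subst h3
      simp only at h2
      rw [h2]
  d43 := by
    rintro (i | ⟨i, d⟩) (j | ⟨j, d'⟩) g h
    · exact D2.d43 i j g ((lab_inl_iff ρ g _ _).mp h)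
    · exact absurd h (lab_inl_ne ρ g _ _)
    · exact absurd h (lab_inr_ne ρ g _ _)
    · exact D1.d43 i j g ((lab_inr_iff ρ g _ _ _ _).mp h).1
  d41 := by
    rintro (i | ⟨i, d⟩) (j | ⟨j, d'⟩) g h
    · exact D2.d41 i j g ((lab_inl_iff ρ g _ _).mp h)
    · exact absurd h (lab_inl_ne ρ g _ _)
    · exact absurd h (lab_inr_ne ρ g _ _)
    · exact D1.d41 i j g ((lab_inr_iff ρ g _ _ _ _).mp h).1
  d31 := by
    rintro (i | ⟨i, d⟩) (j | ⟨j, d'⟩) g h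
    · exact D2.d31 i j g ((lab_inl_iff ρ g _ _).mp h)
    · exact absurd h (lab_inl_ne ρ g _ _)
    · exact absurd h (lab_inr_ne ρ g _ _)
    · exact D1.d31 i j g ((lab_inr_iff ρ g _ _ _ _).mp h).1

end COMB

/-- orbits on the labels -/
theorem COMB {K : Type} [Group K] (ρ : K →* SL(3, ZMod 11))
    (h1 : Nonempty (OD (stdAct.comp ρ) {v | v ≠ 0} (Fin 5)))
    (h2 : Nonempty (OD (dualAct.comp ρ) {v | v ≠ 0} (Fin 5))) :
    Nonempty (OD (labAct.comp ρ) {x | x ≠ Sum.inl 0} (Fin 60)) := by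
  obtain ⟨D1⟩ := h1
  obtain ⟨D2⟩ := h2
  have e : Fin 60 ≃ Fin 5 ⊕ (Fin 5 × ZMod 11) :=
    (finSumFinEquiv (m := 5) (n := 55)).symm.trans
      (Equiv.sumCongr (Equiv.refl _) (finProdFinEquiv (m := 5) (n := 11)).symm)
  exact ⟨COMB.odEquiv (COMB.comb ρ D1 D2) e⟩

end CM
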