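import Pool.Agent.H334R2.CM.Defs
set_option autoImplicit false
open scoped Matrix MatrixGroups
universe u
namespace CM

namespace HOMC

theorem pow2_eq_one {k : Type u} [Field k] [CharP k 2] (z : k) (a : ℕ) (h : z ^ 2 ^ a = 1) :
    z = 1 := by
  have : Fact (Nat.Prime 2) := ⟨Nat.prime_two⟩
  have h1 : (z - 1) ^ 2 ^ a = 0 := by
    rw [sub_pow_char_pow, h, one_pow, sub_self]
  exact sub_eq_zero.mp (pow_eq_zero_iff (by positivity) |>.mp h1)

theorem rou_eq {k : Type u} [Field k] [CharP k 2] (a m : ℕ) :
    rootsOfUnity (2 ^ a * m) k = rootsOfUnity m k := by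
  ext z
  rw [mem_rootsOfUnity, mem_rootsOfUnity]
  constructor
  · intro h
    have h1 : ((z : k) ^ m) ^ 2 ^ a = 1 := by
      rw [← pow_mul, mul_comm m, ← Units.val_pow_eq_pow_val, h, Units.val_one]
    have h2 := pow2_eq_one _ a h1
    ext
    rw [Units.val_pow_eq_pow_val, h2, Units.val_one]
  · intro h
    rw [mul_comm, pow_mul, h, one_pow]

end HOMC

/-- number of characters of a cyclic group in characteristic 2 -/
theorem HOMC {k : Type u} [Field k] [IsAlgClosed k] [CharP k 2] {C : Type} [CommGroup C]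
    [IsCyclic C] [Finite C] (a m : ℕ) (hm : Odd m) (hC : Nat.card C = 2 ^ a * m) :
    Nat.card (C →* kˣ) = m := by
  have : NeZero m := ⟨by rintro rfl; simp at hm⟩
  have : NeZero ((m : ℕ) : k) := by
    refine ⟨?_⟩
    intro h
    rw [CharP.cast_eq_zero_iff k 2] at h
    exact (Nat.not_even_iff_odd.mpr hm) (even_iff_two_dvd.mpr h)
  let e := (IsCyclic.monoidHom_mulEquiv_rootsOfUnity C kˣ).some
  rw [Nat.card_congr e.toEquiv, Nat.card_congr (rootsOfUnityUnitsMulEquiv k (Nat.card C)).toEquiv,
    hC, HOMC.rou_eq]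
  exact HasEnoughRootsOfUnity.natCard_rootsOfUnity k m

theorem T1_cyclic (q : ℕ) [Fact q.Prime] : IsCyclic (T1 q) ∧ Nat.card (T1 q) = q + 1 := by
  have : Finite (GaloisField q 2) := inferInstance
  have : Finite (GaloisField q 2)ˣ := inferInstance
  refine ⟨inferInstance, ?_⟩
  have hq : 2 ≤ q := (Fact.out : q.Prime).two_le
  have h1 : Nat.card (T1 q) = Nat.card (powMonoidHom (q + 1) :
      (GaloisField q 2)ˣ →* (GaloisField q 2)ˣ).ker := by
    congr 1
  rw [h1, IsCyclic.card_powMonoidHom_ker, Nat.card_units, GaloisField.card q 2 (by norm_num)]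
  have h2 : q ^ 2 - 1 = (q + 1) * (q - 1) := by
    simpa using Nat.sq_sub_sq q 1
  rw [h2]
  exact Nat.gcd_eq_right (Dvd.intro _ rfl)

/-- a nontrivial character of an odd order group is not its own inverse; the set of nontrivial
characters has twice as many elements as ... (used for counting): a map identifying only inverse
characters has at least `(m-1)/2` values on the nontrivial characters -/
theorem HOMC_half {k : Type u} [Field k] [IsAlgClosed k] [CharP k 2] {C : Type} [CommGroup C]
    [IsCyclic C] [Finite C] (a m : ℕ) (hm : Odd m) (hC : Nat.card C = 2 ^ a * m) {n : ℕ}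
    (i : (C →* kˣ) → Fin n)
    (hi : ∀ l l', l ≠ 1 → l' ≠ 1 → i l = i l' → l' = l ∨ l' = l⁻¹) :
    ∃ s : Finset (Fin n), (∀ j, j ∈ s ↔ ∃ l, l ≠ 1 ∧ i l = j) ∧ (m - 1) / 2 ≤ s.card := by
  classical
  have hcard := HOMC (k := k) a m hm hC
  have hmpos : 0 < m := hm.pos
  have : Finite (C →* kˣ) := Nat.finite_of_card_ne_zero (by omega)
  let : Fintype (C →* kˣ) := Fintype.ofFinite _
  rw [Nat.card_eq_fintype_card] at hcard
  let S : Finset (C →* kˣ) := Finset.univ.erase 1
  have hS : S.card = m - 1 := by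
    rw [Finset.card_erase_of_mem (Finset.mem_univ _), Finset.card_univ, hcard]
  refine ⟨S.image i, ?_, ?_⟩
  · intro j
    simp [S]
  · have h2 : S.card ≤ 2 * (S.image i).card := by
      apply Finset.card_le_mul_card_image
      intro j hj
      obtain ⟨l, hl, rfl⟩ := Finset.mem_image.mp hj
      have hl1 : l ≠ 1 := (Finset.mem_erase.mp hl).1
      calc (S.filter fun x => i x = i l).card ≤ ({l, l⁻¹} : Finset (C →* kˣ)).card := by
            apply Finset.card_le_card
            intro x hx
            rw [Finset.mem_filter] at hx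
            have := hi l x hl1 (Finset.mem_erase.mp hx.1).1 hx.2.symm
            simpa using this
        _ ≤ 2 := Finset.card_le_two
    omega

end CM
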